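import Pool.Agent.H58.SO.Basic

/-!
# Several orbits of vertices: row TM2, tame operations, the same types
-/

set_option autoImplicit false
set_option linter.unusedVariables false

namespace Pool.Agent.H23.SO

open Pool.Agent.H68.BP Pool.Agent.H58.SF Pool.Agent.H53.GC Pool.Agent.H53.NR Pool.Agent.H58.SO
open Classical

section basic

variable {V X Θ : Type} {M : ℕ} [LinearOrder V]

/-- three vertices of the same type -/
theorem t3 (hCFG : T_CFG) (B : Bs V X Θ M) (t : Θ) (r1 r2 : X)
    (h1 : r1 = B.fr t t ∨ ∃ u v, u ≠ v ∧ B.vt u = t ∧ B.vt v = t ∧ B.c u v = r1)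
    (h2 : r2 = B.fr t t ∨ r2 = r1) :
    ∃ f : Fin 3 → V, Function.Injective f ∧ (∀ a, B.vt (f a) = t) ∧ B.c (f 0) (f 1) = r1 ∧
      B.c (f 0) (f 2) = r2 ∧ B.c (f 1) (f 2) = B.fr t t := by
  have hL1 : B.L r1 = t := by
    rcases h1 with h1 | ⟨u, v, _, hu, _, h1⟩
    · rw [h1, B.frL]
    · rw [← h1, B.left, hu]
  have hR1 : B.Rt r1 = t := by
    rcases h1 with h1 | ⟨u, v, _, _, hv, h1⟩
    · rw [h1, B.frR]
    · rw [← h1, B.right, hv]
  have hL2 : B.L r2 = t := by
    rcases h2 with h2 | h2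
    · rw [h2, B.frL]
    · rw [h2, hL1]
  have hR2 : B.Rt r2 = t := by
    rcases h2 with h2 | h2
    · rw [h2, B.frR]
    · rw [h2, hR1]
  obtain ⟨w0, hw0⟩ := B.surjT t
  obtain ⟨f, hf1, hf2⟩ := hCFG V X Θ M B (Fin 3) (Fin 3) id (fun _ => t)
    (fun x y => (![![B.fr t t, r1, r2], ![B.inv r1, B.fr t t, B.fr t t],
      ![B.inv r2, B.fr t t, B.fr t t]] : Fin 3 → Fin 3 → X) x y)
    Function.injective_id
    (by
      intro x y
      fin_cases x <;> fin_cases y <;> simp [B.frI, B.inv_inv])
    (by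
      intro x
      fin_cases x <;> simp)
    (by
      intro x y
      fin_cases x <;> fin_cases y <;> simp [B.frL, B.L_inv, hL1, hR1, hL2, hR2])
    (by
      intro K _ hK
      have k12 : ¬ ((1 : Fin 3) ∈ K ∧ (2 : Fin 3) ∈ K) := by
        rintro ⟨ha, hb⟩
        exact hK 1 ha 2 hb (by decide) (by simp)
      have k01 : (0 : Fin 3) ∈ K → (1 : Fin 3) ∈ K → r1 ≠ B.fr t t := by
        intro ha hb
        have := hK 0 ha 1 hb (by decide)
        simpa using this
      have k02 : (0 : Fin 3) ∈ K → (2 : Fin 3) ∈ K → r2 ≠ B.fr t t := by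
        intro ha hb
        have := hK 0 ha 2 hb (by decide)
        simpa using this
      rcases h1 with h1 | ⟨u, v, huv, hu, hv, h1⟩
      · have h2' : r2 = B.fr t t := by
          rcases h2 with h2 | h2
          · exact h2
          · rw [h2, h1]
        refine ⟨fun _ => w0, ?_, ?_⟩
        · intro x hx y hy _
          fin_cases x <;> fin_cases y
          · rfl
          · exact absurd h1 (k01 hx hy)
          · exact absurd h2' (k02 hx hy)
          · exact absurd h1 (k01 hy hx)
          · rfl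
          · exact absurd ⟨hx, hy⟩ k12
          · exact absurd h2' (k02 hy hx)
          · exact absurd ⟨hy, hx⟩ k12
          · rfl
        · intro x hx y hy
          have hd : B.c w0 w0 = B.fr t t := by rw [B.diag, hw0]
          fin_cases x <;> fin_cases y <;> simp [hd, h1, h2', B.frI]
      · refine ⟨![u, v, v], ?_, ?_⟩
        · intro x hx y hy hxy
          fin_cases x <;> fin_cases y
          · rfl
          · exact absurd hxy huv
          · exact absurd hxy huv
          · exact absurd hxy.symm huv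
          · rfl
          · exact absurd ⟨hx, hy⟩ k12
          · exact absurd hxy.symm huv
          · exact absurd ⟨hy, hx⟩ k12
          · rfl
        · intro x hx y hy
          have hdu : B.c u u = B.fr t t := by rw [B.diag, hu]
          have hdv : B.c v v = B.fr t t := by rw [B.diag, hv]
          have h1' : B.c v u = B.inv r1 := by rw [B.sym u v, h1]
          have h2'' : (0 : Fin 3) ∈ K → (2 : Fin 3) ∈ K → r2 = r1 := by
            intro ha hb
            rcases h2 with h2 | h2
            · exact absurd h2 (k02 ha hb)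
            · exact h2
          fin_cases x <;> fin_cases y
          · simpa using hdu
          · simpa using h1
          · have := h2'' hx hy
            simpa [this] using h1
          · simpa using h1'
          · simpa using hdv
          · exact absurd ⟨hx, hy⟩ k12
          · have := h2'' hy hx
            simpa [this] using h1'
          · exact absurd ⟨hy, hx⟩ k12
          · simpa using hdv)
  have hinj : Function.Injective f := by
    have hlt : ∀ x y : Fin 3, x < y → f x < f y := fun x y h => hf1 x y h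
    intro x y hxy
    rcases lt_trichotomy x y with h | h | h
    · exact absurd hxy (ne_of_lt (hlt x y h))
    · exact h
    · exact absurd hxy.symm (ne_of_lt (hlt y x h))
  refine ⟨f, hinj, ?_, ?_, ?_, ?_⟩
  · intro a
    have h := hf2 a a
    have h' : B.L (B.c (f a) (f a)) = t := by
      rw [h]
      fin_cases a <;> simp [B.frL]
    rwa [B.left] at h'
  · have := hf2 0 1
    simpa using this
  · have := hf2 0 2
    simpa using this
  · have := hf2 1 2
    simpa using this

/-- data with given types -/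
noncomputable def DD (D : Set Θ) (t : Θ) (o : Option (Option (X × Bool))) : Dt X Θ :=
  ((t, t), if t ∈ D then none else o)

/-- triples of vertices of the type `t` with given data -/
def TRI (B : Bs V X Θ M) (D : Set Θ) (t : Θ) (o01 o02 o12 : Option (Option (X × Bool))) : Prop :=
  ∃ (w : Fin 3 → V) (l : Fin 3 → ℕ), (∀ a, B.vt (w a) = t) ∧ Rnk B D w l ∧
    dat B D w l 0 1 = DD D t o01 ∧ dat B D w l 0 2 = DD D t o02 ∧ dat B D w l 1 2 = DD D t o12

theorem dat_DD (B : Bs V X Θ M) (D : Set Θ) {P : Type} (w : P → V) (l : P → ℕ) (t : Θ)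
    (ht : ∀ a, B.vt (w a) = t) (a b : P) :
    dat B D w l a b = DD D t (if w a = w b then some none else
      some (some (B.c (w a) (w b), decide (l a < l b)))) := by
  unfold dat DD
  simp only [ht, or_self]

/-- symbols of pairs of vertices of the type `t` -/
def Sy (B : Bs V X Θ M) (t : Θ) (o : Option (Option (X × Bool))) : Prop :=
  o = some none ∨ ∃ u v b, u ≠ v ∧ B.vt u = t ∧ B.vt v = t ∧ o = some (some (B.c u v, b))

theorem tri_D (B : Bs V X Θ M) (D : Set Θ) {t : Θ} (ht : t ∈ D)
    (o01 o02 o12 : Option (Option (X × Bool))) : TRI B D t o01 o02 o12 := by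
  obtain ⟨w, hw⟩ := B.surjT t
  have hd : ∀ a b : Fin 3, ∀ o, dat B D (fun _ => w) (fun _ => 0) a b = DD D t o := by
    intro a b o
    rw [dat_DD B D (fun _ => w) (fun _ => 0) t (fun _ => hw)]
    unfold DD
    simp [ht]
  exact ⟨fun _ => w, fun _ => 0, fun _ => hw, fun a b _ _ => by simp, hd _ _ _, hd _ _ _, hd _ _ _⟩

theorem tri_eq (B : Bs V X Θ M) (D : Set Θ) (t : Θ) :
    TRI B D t (some none) (some none) (some none) := by
  obtain ⟨w, hw⟩ := B.surjT t
  have hd : ∀ a b : Fin 3, dat B D (fun _ => w) (fun _ => 0) a b = DD D t (some none) := by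
    intro a b
    rw [dat_DD B D (fun _ => w) (fun _ => 0) t (fun _ => hw)]
    simp
  exact ⟨fun _ => w, fun _ => 0, fun _ => hw, fun a b _ _ => by simp, hd _ _, hd _ _, hd _ _⟩

/-- triples from three different vertices -/
theorem tri_inj (B : Bs V X Θ M) (D : Set Θ) (t : Θ) (w : Fin 3 → V) (l : Fin 3 → ℕ)
    (ht : ∀ a, B.vt (w a) = t) (hw : Function.Injective w) (hl : Function.Injective l) :
    TRI B D t (some (some (B.c (w 0) (w 1), decide (l 0 < l 1))))
      (some (some (B.c (w 0) (w 2), decide (l 0 < l 2))))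
      (some (some (B.c (w 1) (w 2), decide (l 1 < l 2)))) := by
  refine ⟨w, l, ht, fun a b _ _ => ?_, ?_, ?_, ?_⟩
  · exact ⟨fun h => by rw [hl h], fun h => by rw [hw h]⟩
  · rw [dat_DD B D w l t ht, if_neg (fun h => absurd (hw h) (by decide))]
  · rw [dat_DD B D w l t ht, if_neg (fun h => absurd (hw h) (by decide))]
  · rw [dat_DD B D w l t ht, if_neg (fun h => absurd (hw h) (by decide))]

theorem tri_a (hCFG : T_CFG) (B : Bs V X Θ M) (D : Set Θ) (t : Θ) (u v : V) (b b' : Bool)
    (huv : u ≠ v) (hu : B.vt u = t) (hv : B.vt v = t) :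
    TRI B D t (some (some (B.c u v, b))) (some (some (B.c u v, b)))
      (some (some (B.fr t t, b'))) := by
  obtain ⟨f, hf, ht, h01, h02, h12⟩ := t3 hCFG B t (B.c u v) (B.c u v)
    (Or.inr ⟨u, v, huv, hu, hv, rfl⟩) (Or.inr rfl)
  cases b <;> cases b'
  · have h := tri_inj B D t f ![3, 2, 1] ht hf (by
      intro x y hxy
      fin_cases x <;> fin_cases y <;> simp_all)
    rw [h01, h02, h12] at h
    simpa using h
  · have h := tri_inj B D t f ![3, 1, 2] ht hf (by
      intro x y hxy
      fin_cases x <;> fin_cases y <;> simp_all)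
    rw [h01, h02, h12] at h
    simpa using h
  · have h := tri_inj B D t f ![0, 2, 1] ht hf (by
      intro x y hxy
      fin_cases x <;> fin_cases y <;> simp_all)
    rw [h01, h02, h12] at h
    simpa using h
  · have h := tri_inj B D t f ![0, 1, 2] ht hf (by
      intro x y hxy
      fin_cases x <;> fin_cases y <;> simp_all)
    rw [h01, h02, h12] at h
    simpa using h

theorem tri_b (hCFG : T_CFG) (B : Bs V X Θ M) (D : Set Θ) (t : Θ)
    (o : Option (Option (X × Bool))) (ho : Sy B t o) :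
    TRI B D t o (some (some (B.fr t t, true))) (some (some (B.fr t t, true))) := by
  rcases ho with rfl | ⟨u, v, b, huv, hu, hv, rfl⟩
  · obtain ⟨f, hf, ht, h01, h02, h12⟩ := t3 hCFG B t (B.fr t t) (B.fr t t)
      (Or.inl rfl) (Or.inr rfl)
    have hne : f 0 ≠ f 2 := fun h => absurd (hf h) (by decide)
    refine ⟨![f 0, f 0, f 2], ![0, 0, 1], ?_, ?_, ?_, ?_, ?_⟩
    · intro a
      fin_cases a <;> simp [ht]
    · intro a b _ _
      fin_cases a <;> fin_cases b <;> simp [hne, hne.symm]
    · rw [dat_DD B D _ _ t (by intro a; fin_cases a <;> simp [ht])]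
      simp
    · rw [dat_DD B D _ _ t (by intro a; fin_cases a <;> simp [ht])]
      simp [hne, h02]
    · rw [dat_DD B D _ _ t (by intro a; fin_cases a <;> simp [ht])]
      simp [hne, h02]
  · obtain ⟨f, hf, ht, h01, h02, h12⟩ := t3 hCFG B t (B.c u v) (B.fr t t)
      (Or.inr ⟨u, v, huv, hu, hv, rfl⟩) (Or.inl rfl)
    cases b
    · have h := tri_inj B D t f ![1, 0, 2] ht hf (by
        intro x y hxy
        fin_cases x <;> fin_cases y <;> simp_all)
      rw [h01, h02, h12] at h
      simpa using h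
    · have h := tri_inj B D t f ![0, 1, 2] ht hf (by
        intro x y hxy
        fin_cases x <;> fin_cases y <;> simp_all)
      rw [h01, h02, h12] at h
      simpa using h

theorem tri_c0 (B : Bs V X Θ M) (D : Set Θ) (t : Θ) (u v : V) (b : Bool)
    (huv : u ≠ v) (hu : B.vt u = t) (hv : B.vt v = t) :
    TRI B D t (some (some (B.c u v, b))) (some none) (some (some (B.c v u, !b))) := by
  have ht : ∀ a : Fin 3, B.vt ((![u, v, u] : Fin 3 → V) a) = t := by
    intro a
    fin_cases a <;> simp [hu, hv]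
  cases b
  · refine ⟨![u, v, u], ![1, 0, 1], ht, ?_, ?_, ?_, ?_⟩
    · intro a b _ _
      fin_cases a <;> fin_cases b <;> simp [huv, huv.symm]
    · rw [dat_DD B D _ _ t ht]
      simp [huv]
    · rw [dat_DD B D _ _ t ht]
      simp
    · rw [dat_DD B D _ _ t ht]
      simp [huv.symm]
  · refine ⟨![u, v, u], ![0, 1, 0], ht, ?_, ?_, ?_, ?_⟩
    · intro a b _ _
      fin_cases a <;> fin_cases b <;> simp [huv, huv.symm]
    · rw [dat_DD B D _ _ t ht]
      simp [huv]
    · rw [dat_DD B D _ _ t ht]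
      simp
    · rw [dat_DD B D _ _ t ht]
      simp [huv.symm]

theorem tri_c1 (B : Bs V X Θ M) (D : Set Θ) (t : Θ) (u v : V) (b : Bool)
    (huv : u ≠ v) (hu : B.vt u = t) (hv : B.vt v = t) :
    TRI B D t (some (some (B.c u v, b))) (some (some (B.c u v, b))) (some none) := by
  have ht : ∀ a : Fin 3, B.vt ((![u, v, v] : Fin 3 → V) a) = t := by
    intro a
    fin_cases a <;> simp [hu, hv]
  cases b
  · refine ⟨![u, v, v], ![1, 0, 0], ht, ?_, ?_, ?_, ?_⟩
    · intro a b _ _
      fin_cases a <;> fin_cases b <;> simp [huv, huv.symm]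
    · rw [dat_DD B D _ _ t ht]
      simp [huv]
    · rw [dat_DD B D _ _ t ht]
      simp [huv]
    · rw [dat_DD B D _ _ t ht]
      simp
  · refine ⟨![u, v, v], ![0, 1, 1], ht, ?_, ?_, ?_, ?_⟩
    · intro a b _ _
      fin_cases a <;> fin_cases b <;> simp [huv, huv.symm]
    · rw [dat_DD B D _ _ t ht]
      simp [huv]
    · rw [dat_DD B D _ _ t ht]
      simp [huv]
    · rw [dat_DD B D _ _ t ht]
      simp

/-- the free symbol is a symbol -/
theorem sy_fr (hCFG : T_CFG) (B : Bs V X Θ M) (t : Θ) (b : Bool) :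
    Sy B t (some (some (B.fr t t, b))) := by
  obtain ⟨f, hf, ht, h01, h02, h12⟩ := t3 hCFG B t (B.fr t t) (B.fr t t)
    (Or.inl rfl) (Or.inr rfl)
  exact Or.inr ⟨f 0, f 1, b, fun h => absurd (hf h) (by decide), ht 0, ht 1, by rw [h01]⟩

end basic

section main

variable {V X Θ : Type} {M : ℕ} [LinearOrder V] {σ : Sig} {B : Bs V X Θ M} {𝔸 : Str σ V}
  {D : Set Θ} {n : ℕ} {Q : (Fin n → Θ) → Prop} {φ : (Fin n → Dt X Θ) → Ot X Θ}

/-- the value is the equality -/
def Val (D : Set Θ) (φ : (Fin n → Dt X Θ) → Ot X Θ) (θ : Fin n → Θ)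
    (o : Fin n → Option (Option (X × Bool))) : Prop :=
  (φ (fun m => DD D (θ m) (o m))).2 = some none

theorem trans_tri (hOLK : T_OLK) (hφ : OLO B 𝔸 D Q φ) {θ : Fin n → Θ} (hQ : Q θ)
    (hty : ty D φ θ ∉ D) {o01 o02 o12 : Fin n → Option (Option (X × Bool))}
    (h : ∀ m, TRI B D (θ m) (o01 m) (o02 m) (o12 m)) :
    (Val D φ θ o01 → Val D φ θ o02 → Val D φ θ o12) ∧
      (Val D φ θ o02 → Val D φ θ o12 → Val D φ θ o01) := by
  choose w l ht hr h01 h02 h12 using h
  have hθ : ∀ a : Fin 3, (fun m => B.vt (w m a)) = θ := fun a => funext fun m => ht m a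
  obtain ⟨y, hy⟩ := hOLK σ V X Θ M B 𝔸 D n Q φ hφ 3 w l (by norm_num)
    (le_trans (by norm_num) B.four) hr (fun a => by rw [hθ a]; exact hQ)
  have hvt : ∀ a, B.vt (y a) = ty D φ θ := by
    intro a
    have h1 := ty_eq (B := B) (D := D) φ w l a
    rw [hθ a, ← hy a a] at h1
    exact h1.symm
  have hval : ∀ a b, (φ (fun m => dat B D (w m) (l m) a b)).2 = some none ↔ y a = y b := by
    intro a b
    rw [← hy a b]
    unfold out
    simp only [hvt, hty, or_self, if_false]
    by_cases hab : y a = y b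
    · simp [hab]
    · simp [hab]
  have e01 : Val D φ θ o01 ↔ y 0 = y 1 := by
    rw [← hval 0 1]
    unfold Val
    simp only [h01]
  have e02 : Val D φ θ o02 ↔ y 0 = y 2 := by
    rw [← hval 0 2]
    unfold Val
    simp only [h02]
  have e12 : Val D φ θ o12 ↔ y 1 = y 2 := by
    rw [← hval 1 2]
    unfold Val
    simp only [h12]
  rw [e01, e02, e12]
  exact ⟨fun h1 h2 => h1.symm.trans h2, fun h1 h2 => h1.trans h2.symm⟩

/-- equality on `E`, free elsewhere -/
noncomputable def FRo (B : Bs V X Θ M) (θ : Fin n → Θ) (E : Set (Fin n)) (m : Fin n) :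
    Option (Option (X × Bool)) :=
  if m ∈ E then some none else some (some (B.fr (θ m) (θ m), true))

/-- the equality set -/
def eqs (D : Set Θ) (θ : Fin n → Θ) (o : Fin n → Option (Option (X × Bool))) : Set (Fin n) :=
  {m | θ m ∉ D ∧ o m = some none}

theorem val_iff (hCFG : T_CFG) (hOLK : T_OLK) (hφ : OLO B 𝔸 D Q φ) {θ : Fin n → Θ} (hQ : Q θ)
    (hty : ty D φ θ ∉ D) {o : Fin n → Option (Option (X × Bool))}
    (ho : ∀ m, θ m ∉ D → Sy B (θ m) (o m)) :
    Val D φ θ o ↔ Val D φ θ (FRo B θ (eqs D θ o)) := by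
  constructor
  · intro h
    refine (trans_tri hOLK hφ hQ hty (o01 := o) (o02 := o) (o12 := FRo B θ (eqs D θ o))
      fun m => ?_).1 h h
    by_cases hD : θ m ∈ D
    · exact tri_D B D hD _ _ _
    · rcases ho m hD with h1 | ⟨u, v, b, huv, hu, hv, h1⟩
      · have : FRo B θ (eqs D θ o) m = some none := if_pos ⟨hD, h1⟩
        rw [this, h1]
        exact tri_eq B D _
      · have : FRo B θ (eqs D θ o) m = some (some (B.fr (θ m) (θ m), true)) := by
          refine if_neg ?_
          rintro ⟨_, h2⟩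
          rw [h1] at h2
          simp at h2
        rw [this, h1]
        exact tri_a hCFG B D _ u v b true huv hu hv
  · intro h
    refine (trans_tri hOLK hφ hQ hty (o01 := o) (o02 := FRo B θ (eqs D θ o))
      (o12 := FRo B θ (eqs D θ o)) fun m => ?_).2 h h
    by_cases hD : θ m ∈ D
    · exact tri_D B D hD _ _ _
    · by_cases h1 : o m = some none
      · have : FRo B θ (eqs D θ o) m = some none := if_pos ⟨hD, h1⟩
        rw [this, h1]
        exact tri_eq B D _
      · have : FRo B θ (eqs D θ o) m = some (some (B.fr (θ m) (θ m), true)) :=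
          if_neg fun h2 => h1 h2.2
        rw [this]
        exact tri_b hCFG B D _ _ (ho m hD)

theorem fro_sy (hCFG : T_CFG) (B : Bs V X Θ M) (θ : Fin n → Θ) (E : Set (Fin n)) (m : Fin n) :
    Sy B (θ m) (FRo B θ E m) := by
  unfold FRo
  split_ifs
  · exact Or.inl rfl
  · exact sy_fr hCFG B _ _

theorem eqs_fro (B : Bs V X Θ M) (D : Set Θ) (θ : Fin n → Θ) (E : Set (Fin n))
    (hE : ∀ m ∈ E, θ m ∉ D) : eqs D θ (FRo B θ E) = E := by
  ext m
  unfold eqs FRo
  constructor
  · rintro ⟨_, h⟩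
    by_contra h'
    rw [if_neg h'] at h
    simp at h
  · intro h
    exact ⟨hE m h, if_pos h⟩

/-- the family of the equality sets with the value equality -/
def fam (B : Bs V X Θ M) (D : Set Θ) (φ : (Fin n → Dt X Θ) → Ot X Θ) (θ : Fin n → Θ) :
    Set (Set (Fin n)) :=
  {E | (∀ m ∈ E, θ m ∉ D) ∧ Val D φ θ (FRo B θ E)}

theorem fam_up (hCFG : T_CFG) (hOLK : T_OLK) (hφ : OLO B 𝔸 D Q φ) {θ : Fin n → Θ} (hQ : Q θ)
    (hty : ty D φ θ ∉ D) {E E' : Set (Fin n)} (hE : E ∈ fam B D φ θ) (hEE : E ⊆ E')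
    (hE' : ∀ m ∈ E', θ m ∉ D) : E' ∈ fam B D φ θ := by
  refine ⟨hE', ?_⟩
  refine (trans_tri hOLK hφ hQ hty (o01 := FRo B θ E') (o02 := FRo B θ E)
      (o12 := FRo B θ E) fun m => ?_).2 hE.2 hE.2
  by_cases hD : θ m ∈ D
  · exact tri_D B D hD _ _ _
  · by_cases h1 : m ∈ E
    · have e1 : FRo B θ E m = some none := if_pos h1
      have e2 : FRo B θ E' m = some none := if_pos (hEE h1)
      rw [e1, e2]
      exact tri_eq B D _
    · have e1 : FRo B θ E m = some (some (B.fr (θ m) (θ m), true)) := if_neg h1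
      rw [e1]
      exact tri_b hCFG B D _ _ (fro_sy hCFG B θ E' m)

theorem fam_inter (hCFG : T_CFG) (hOLK : T_OLK) (hφ : OLO B 𝔸 D Q φ) {θ : Fin n → Θ} (hQ : Q θ)
    (hty : ty D φ θ ∉ D) {E₀ E₁ : Set (Fin n)} (h₀ : E₀ ∈ fam B D φ θ)
    (h₁ : E₁ ∈ fam B D φ θ) : E₀ ∩ E₁ ∈ fam B D φ θ := by
  refine ⟨fun m hm => h₀.1 m hm.1, ?_⟩
  have hfr : ∀ m, ∃ u v : V, u ≠ v ∧ B.vt u = θ m ∧ B.vt v = θ m ∧ B.c u v = B.fr (θ m) (θ m) ∧
      B.c v u = B.fr (θ m) (θ m) := by
    intro m
    obtain ⟨f, hf, ht, h01, h02, h12⟩ := t3 hCFG B (θ m) (B.fr (θ m) (θ m)) (B.fr (θ m) (θ m))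
      (Or.inl rfl) (Or.inr rfl)
    exact ⟨f 0, f 1, fun h => absurd (hf h) (by decide), ht 0, ht 1, h01, by
      rw [B.sym (f 0) (f 1), h01, B.frI]⟩
  -- the symbols of the pairs (0, 2) and (1, 2)
  set o₀ : Fin n → Option (Option (X × Bool)) := fun m =>
    if m ∈ E₀ then some none else some (some (B.fr (θ m) (θ m), true)) with ho₀
  set o₁ : Fin n → Option (Option (X × Bool)) := fun m =>
    if m ∈ E₁ then some none else if m ∈ E₀ then some (some (B.fr (θ m) (θ m), false)) else
      some (some (B.fr (θ m) (θ m), true)) with ho₁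
  have hv0 : Val D φ θ o₀ := h₀.2
  have hv1 : Val D φ θ o₁ := by
    have hs : ∀ m, θ m ∉ D → Sy B (θ m) (o₁ m) := by
      intro m _
      rw [ho₁]
      simp only
      split_ifs
      · exact Or.inl rfl
      · exact sy_fr hCFG B _ _
      · exact sy_fr hCFG B _ _
    rw [val_iff hCFG hOLK hφ hQ hty hs]
    have he : eqs D θ o₁ = E₁ := by
      ext m
      constructor
      · rintro ⟨_, h⟩
        by_contra h'
        rw [ho₁] at h
        simp only [if_neg h'] at h
        split_ifs at h <;> simp at h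
      · intro h
        exact ⟨h₁.1 m h, if_pos h⟩
    rw [he]
    exact h₁.2
  refine (trans_tri hOLK hφ hQ hty (o01 := FRo B θ (E₀ ∩ E₁)) (o02 := o₀)
      (o12 := o₁) fun m => ?_).2 hv0 hv1
  by_cases hD : θ m ∈ D
  · exact tri_D B D hD _ _ _
  obtain ⟨u, v, huv, hu, hv, hc, hc'⟩ := hfr m
  by_cases h1 : m ∈ E₀ <;> by_cases h2 : m ∈ E₁
  · have e1 : FRo B θ (E₀ ∩ E₁) m = some none := if_pos ⟨h1, h2⟩
    have e2 : o₀ m = some none := if_pos h1
    have e3 : o₁ m = some none := if_pos h2
    rw [e1, e2, e3]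
    exact tri_eq B D _
  · have e1 : FRo B θ (E₀ ∩ E₁) m = some (some (B.c u v, true)) := by
      rw [hc]
      exact if_neg fun h => h2 h.2
    have e2 : o₀ m = some none := if_pos h1
    have e3 : o₁ m = some (some (B.c v u, !true)) := by
      rw [hc', ho₁]
      simp only [if_neg h2, if_pos h1, Bool.not_true]
    rw [e1, e2, e3]
    exact tri_c0 B D _ u v true huv hu hv
  · have e1 : FRo B θ (E₀ ∩ E₁) m = some (some (B.c u v, true)) := by
      rw [hc]
      exact if_neg fun h => h1 h.1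
    have e2 : o₀ m = some (some (B.c u v, true)) := by
      rw [hc]
      exact if_neg h1
    have e3 : o₁ m = some none := if_pos h2
    rw [e1, e2, e3]
    exact tri_c1 B D _ u v true huv hu hv
  · have e2 : o₀ m = some (some (B.fr (θ m) (θ m), true)) := if_neg h1
    have e3 : o₁ m = some (some (B.fr (θ m) (θ m), true)) := by
      rw [ho₁]
      simp only [if_neg h2, if_neg h1]
    rw [e2, e3]
    exact tri_b hCFG B D _ _ (fro_sy hCFG B θ _ m)

theorem fam_top (hOLK : T_OLK) (hφ : OLO B 𝔸 D Q φ) {θ : Fin n → Θ} (hQ : Q θ)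
    (hty : ty D φ θ ∉ D) : {m | θ m ∉ D} ∈ fam B D φ θ := by
  refine ⟨fun m hm => hm, ?_⟩
  have h := trans_tri hOLK hφ hQ hty (o01 := fun _ => some none) (o02 := fun _ => some none)
      (o12 := fun _ => some none) (fun m => tri_eq B D _)
  -- the value on the diagonal
  choose w hw using fun m => B.surjT (θ m)
  have hθ : ∀ a : Fin 1, (fun m => B.vt ((fun _ : Fin 1 => w m) a)) = θ :=
    fun a => funext fun m => hw m
  obtain ⟨y, hy⟩ := hOLK σ V X Θ M B 𝔸 D n Q φ hφ 1 (fun m _ => w m) (fun _ _ => 0) le_rfl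
    (le_trans (by norm_num) B.four) (fun m a b _ _ => by simp) (fun a => by rw [hθ a]; exact hQ)
  have hvt : B.vt (y 0) = ty D φ θ := by
    have h1 := ty_eq (B := B) (D := D) φ (fun m (_ : Fin 1) => w m) (fun _ _ => 0) 0
    rw [hθ 0, ← hy 0 0] at h1
    exact h1.symm
  have h2 := hy 0 0
  rw [out_self, hvt, if_neg hty] at h2
  unfold Val
  have h3 : (fun m => DD D (θ m) (FRo B θ {m | θ m ∉ D} m)) =
      fun m => dat B D (fun _ : Fin 1 => w m) (fun _ => 0) 0 0 := by
    funext m
    rw [dat_self, hw m]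
    unfold DD FRo
    by_cases hD : θ m ∈ D
    · simp [hD]
    · simp [hD]
  rw [h3, ← h2]

end main

theorem pf_TM2 (hCFG : T_CFG) (hOLK : T_OLK) : T_TM2 := by
  intro σ V X Θ _ M B 𝔸 D n Q φ hφ
  refine ⟨fun θ => {m | θ m ∉ D ∧ ∀ E ∈ fam B D φ θ, m ∈ E}, fun θ m hm => hm.1, ?_⟩
  intro θ hQ hty x L hR hx
  have hJ : {m | θ m ∉ D ∧ ∀ E ∈ fam B D φ θ, m ∈ E} ∈ fam B D φ θ := by
    have hfin : (fam B D φ θ).Finite := Set.toFinite _
    have hind : ∀ S : Finset (Set (Fin n)), (∀ E ∈ S, E ∈ fam B D φ θ) →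
        {m | θ m ∉ D ∧ ∀ E ∈ S, m ∈ E} ∈ fam B D φ θ := by
      intro S
      induction S using Finset.induction_on with
      | empty =>
        intro _
        have := fam_top hOLK hφ hQ hty
        have e : {m | θ m ∉ D ∧ ∀ E ∈ (∅ : Finset (Set (Fin n))), m ∈ E} = {m | θ m ∉ D} := by
          ext m
          simp
        rw [e]
        exact this
      | insert E S hES ih =>
        intro h
        have h1 := h E (Finset.mem_insert_self _ _)
        have h2 := ih fun E' hE' => h E' (Finset.mem_insert_of_mem hE')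
        have e : {m | θ m ∉ D ∧ ∀ E' ∈ insert E S, m ∈ E'} =
            E ∩ {m | θ m ∉ D ∧ ∀ E ∈ S, m ∈ E} := by
          ext m
          constructor
          · rintro ⟨ha, hb⟩
            exact ⟨hb E (Finset.mem_insert_self _ _), ha,
              fun E' hE' => hb E' (Finset.mem_insert_of_mem hE')⟩
          · rintro ⟨ha, hb, hc⟩
            refine ⟨hb, fun E' hE' => ?_⟩
            rcases Finset.mem_insert.1 hE' with rfl | h3
            · exact ha
            · exact hc E' h3
        rw [e]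
        exact fam_inter hCFG hOLK hφ hQ hty h1 h2
    have h1 := hind hfin.toFinset fun E hE => hfin.mem_toFinset.1 hE
    have e : {m | θ m ∉ D ∧ ∀ E ∈ hfin.toFinset, m ∈ E} =
        {m | θ m ∉ D ∧ ∀ E ∈ fam B D φ θ, m ∈ E} := by
      ext m
      constructor
      · rintro ⟨ha, hb⟩
        exact ⟨ha, fun E hE => hb E (hfin.mem_toFinset.2 hE)⟩
      · rintro ⟨ha, hb⟩
        exact ⟨ha, fun E hE => hb E (hfin.mem_toFinset.1 hE)⟩
    rwa [e] at h1
  -- the symbols of the given pair
  set o : Fin n → Option (Option (X × Bool)) := fun m =>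
    if x m 0 = x m 1 then some none else
      some (some (B.c (x m 0) (x m 1), decide (L m 0 < L m 1))) with ho
  have hd : (fun m => dat B D (x m) (L m) 0 1) = fun m => DD D (θ m) (o m) := by
    funext m
    exact dat_DD B D (x m) (L m) (θ m) (hx m) 0 1
  have hs : ∀ m, θ m ∉ D → Sy B (θ m) (o m) := by
    intro m _
    rw [ho]
    simp only
    split_ifs with h
    · exact Or.inl rfl
    · exact Or.inr ⟨_, _, _, h, hx m 0, hx m 1, rfl⟩
  have hv := val_iff hCFG hOLK hφ hQ hty hs
  have heq : ∀ m, m ∈ eqs D θ o ↔ θ m ∉ D ∧ x m 0 = x m 1 := by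
    intro m
    unfold eqs
    constructor
    · rintro ⟨ha, hb⟩
      refine ⟨ha, ?_⟩
      by_contra h
      rw [ho] at hb
      simp only [if_neg h] at hb
      simp at hb
    · rintro ⟨ha, hb⟩
      exact ⟨ha, if_pos hb⟩
  have hE : ∀ m ∈ eqs D θ o, θ m ∉ D := fun m hm => hm.1
  rw [hd]
  change Val D φ θ o ↔ _
  rw [hv]
  constructor
  · intro h m hm
    exact ((heq m).1 (hm.2 _ ⟨hE, h⟩)).2
  · intro h
    exact (fam_up hCFG hOLK hφ hQ hty hJ (fun m hm => (heq m).2 ⟨hm.1, h m hm⟩) hE).2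

end Pool.Agent.H23.SO
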